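import Pool.Agent.H31.SW.TargetsG

/-!
# Target W_SX: interchange of the sum over the lattice and the sums over the pieces
-/

set_option autoImplicit false

open NumberField NumberField.InfinitePlace

namespace Pool.Agent.H13.SWL

open Pool.Agent.H25.HK Pool.Agent.H31.SW
open Pool.Agent.H29.DW (wv Pos)

theorem pf_SX (hPE : W_PE) (hCU : W_CU) : W_SX := by
  intro K _ _ L y ω J F g R c χ hL hω hχ hF hsupp hc
  classical
  have hc0 : ∀ v j, 0 ≤ c v j := fun v j => (norm_nonneg _).trans (hF v j 0)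
  obtain ⟨C, hC1, hC⟩ := hCU (Module.finrank ℚ K) Module.finrank_pos
  set R' : ℝ := max R 0 with hR'
  set A : (InfinitePlace K → J) → Set K := fun j =>
    {x : K | x ∈ L ∧ ∀ v, ‖wv v x y ω - g v (j v)‖ ≤ R'} with hA
  have hAf : ∀ j, (A j).Finite ∧ ((A j).ncard : ℝ) ≤ C * (1 + DD L y * PP (fun _ : InfinitePlace K => R')) :=
    fun j => hC K rfl L y ω (fun v => g v (j v)) (fun _ => R') hL hω (fun _ => le_max_right _ _)
  set N0 : ℝ := C * (1 + DD L y * PP (fun _ : InfinitePlace K => R')) with hN0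
  -- the terms
  set G : (InfinitePlace K → J) × {x : K // x ∈ L} → ℂ := fun p =>
    χ p.2 * pF (fun v => F v (p.1 v)) y ω p.2 with hG
  have hGz : ∀ (j : InfinitePlace K → J) (x : {x : K // x ∈ L}), x.1 ∉ A j → G (j, x) = 0 := by
    intro j x hx
    have h1 : ∃ v, R' < ‖wv v x.1 y ω - g v (j v)‖ := by
      by_contra hcon
      push Not at hcon
      exact hx ⟨x.2, hcon⟩
    obtain ⟨v, hv⟩ := h1
    have h2 : F v (j v) (wv v x.1 y ω) = 0 :=
      hsupp v (j v) _ (lt_of_le_of_lt (le_max_left _ _) hv)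
    simp only [hG, pF]
    rw [Finset.prod_eq_zero (Finset.mem_univ v) h2, mul_zero]
  have hGn : ∀ (j : InfinitePlace K → J) (x : {x : K // x ∈ L}),
      ‖G (j, x)‖ ≤ ∏ v, c v (j v) := by
    intro j x
    simp only [hG, pF]
    rw [norm_mul, norm_prod]
    have h1 : ∏ v, ‖F v (j v) (wv v x.1 y ω)‖ ≤ ∏ v, c v (j v) :=
      Finset.prod_le_prod (fun v _ => norm_nonneg _) fun v _ => hF v (j v) _
    have h2 : 0 ≤ ∏ v, ‖F v (j v) (wv v x.1 y ω)‖ :=
      Finset.prod_nonneg fun v _ => norm_nonneg _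
    nlinarith [hχ x.1, norm_nonneg (χ x.1)]
  -- the sums for fixed `j`
  have hfin : ∀ j : InfinitePlace K → J, ({x : {x : K // x ∈ L} | x.1 ∈ A j}).Finite := fun j =>
    (hAf j).1.preimage (Subtype.val_injective.injOn)
  have hcard : ∀ j : InfinitePlace K → J, (((hfin j).toFinset.card : ℕ) : ℝ) ≤ N0 := by
    intro j
    refine le_trans ?_ (hAf j).2
    have h1 : (hfin j).toFinset.card = ((hfin j).toFinset.image Subtype.val).card :=
      (Finset.card_image_of_injective _ Subtype.val_injective).symm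
    rw [h1, Set.ncard_eq_toFinset_card _ (hAf j).1]
    have h2 : (hfin j).toFinset.image Subtype.val ⊆ (hAf j).1.toFinset := by
      intro x hx
      rw [Finset.mem_image] at hx
      obtain ⟨x', hx', rfl⟩ := hx
      rw [Set.Finite.mem_toFinset] at hx' ⊢
      exact hx'
    exact_mod_cast Finset.card_le_card h2
  have hS1 : ∀ j : InfinitePlace K → J,
      HasSum (fun x => ‖G (j, x)‖) (∑ x ∈ (hfin j).toFinset, ‖G (j, x)‖) := by
    intro j
    refine hasSum_sum_of_ne_finset_zero fun x hx => ?_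
    rw [hGz j x (by simpa using hx), norm_zero]
  have hS2 : ∀ j : InfinitePlace K → J, ∑' x, ‖G (j, x)‖ ≤ N0 * ∏ v, c v (j v) := by
    intro j
    rw [(hS1 j).tsum_eq]
    have hp : 0 ≤ ∏ v, c v (j v) := Finset.prod_nonneg fun v _ => hc0 v (j v)
    calc ∑ x ∈ (hfin j).toFinset, ‖G (j, x)‖ ≤ ∑ x ∈ (hfin j).toFinset, ∏ v, c v (j v) :=
          Finset.sum_le_sum fun x _ => hGn j x
      _ = ((hfin j).toFinset.card : ℝ) * ∏ v, c v (j v) := by
          rw [Finset.sum_const, nsmul_eq_mul]
      _ ≤ N0 * ∏ v, c v (j v) := mul_le_mul_of_nonneg_right (hcard j) hp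
  have hS3 : Summable fun j : InfinitePlace K → J => ∏ v, c v (j v) := by
    have h := (hPE (InfinitePlace K) J (fun v j => (c v j : ℂ)) (fun v => by
      simpa [abs_of_nonneg (hc0 v _)] using hc v)).1
    refine h.congr fun j => ?_
    rw [norm_prod]
    refine Finset.prod_congr rfl fun v _ => ?_
    rw [Complex.norm_real, Real.norm_of_nonneg (hc0 v _)]
  have hS4 : Summable fun j : InfinitePlace K → J => ∑' x, ‖G (j, x)‖ :=
    Summable.of_nonneg_of_le (fun j => tsum_nonneg fun x => norm_nonneg _) hS2 (hS3.mul_left N0)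
  have hS5 : Summable fun p => ‖G p‖ :=
    (summable_prod_of_nonneg fun p => norm_nonneg _).2 ⟨fun j => (hS1 j).summable, hS4⟩
  have hS6 : Summable G := hS5.of_norm
  refine ⟨?_, ?_⟩
  · refine Summable.of_nonneg_of_le (fun j => norm_nonneg _) (fun j => ?_) hS4
    exact norm_tsum_le_tsum_norm (hS1 j).summable
  · have h1 : ∀ x : {x : K // x ∈ L}, χ x * pF (fun v z => ∑' j, F v j z) y ω x =
        ∑' j : InfinitePlace K → J, G (j, x) := by
      intro x
      have h2 := (hPE (InfinitePlace K) J (fun v j => F v j (wv v x.1 y ω)) (fun v =>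
        Summable.of_nonneg_of_le (fun j => norm_nonneg _) (fun j => hF v j _) (hc v))).2
      simp only [pF, hG]
      rw [h2, tsum_mul_left]
    simp_rw [h1]
    have hS7 : Summable (Function.uncurry fun (j : InfinitePlace K → J) (x : {x : K // x ∈ L}) =>
        G (j, x)) := hS6
    exact hS7.tsum_comm

end Pool.Agent.H13.SWL
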